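import Pool.Agent.H22.Net1

set_option autoImplicit false
open MeasureTheory ProbabilityTheory Set Function
open scoped Classical ENNReal

namespace Pool.Agent.Results.MP_5c5aaa_pr.NoPeriodic
noncomputable section
open Pool.Agent.H22

/-- The shift by `v`. -/
def shift {A : Type} (v : ℤ × ℤ) (x : ℤ × ℤ → A) : ℤ × ℤ → A := fun u => x (u + v)

/-- The support of a random field: every finite pattern of `x` has positive probability. -/
def supp {A : Type} [MeasurableSpace A] (μ : Measure (ℤ × ℤ → A)) : Set (ℤ × ℤ → A) :=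
  {x | ∀ B : Finset (ℤ × ℤ), 0 < μ {y | ∀ v ∈ B, y v = x v}}

/-- The stabiliser of a configuration. -/
def stab {A : Type} (x : ℤ × ℤ → A) : AddSubgroup (ℤ × ℤ) where
  carrier := {v | shift v x = x}
  add_mem' := fun {a b} h h' => funext fun u =>
    (congrArg x (add_assoc u a b).symm).trans ((congrFun h' (u + a)).trans (congrFun h u))
  zero_mem' := funext fun u => congrArg x (add_zero u)
  neg_mem' := fun {a} h => funext fun u =>
    (congrFun h (u + -a)).symm.trans (congrArg x (neg_add_cancel_right u a))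

abbrev T := UnitAddCircle
def lf (z : T) : ℝ := AddCircle.equivIco 1 0 z
lemma lf1 (z : T) : 0 ≤ lf z ∧ lf z < 1 := by simpa [lf] using (AddCircle.equivIco 1 0 z).2
lemma lf2 (z : T) : (lf z : T) = z := (AddCircle.equivIco 1 0).symm_apply_apply z
def cell (z : T) : Fin 4 := ⟨⌊4 * lf z⌋₊, (Nat.floor_lt (by linarith [lf1 z])).2 (by
  push_cast; linarith [lf1 z])⟩
lemma cell1 (z : T) : ((cell z : ℕ) : ℝ) ≤ 4 * lf z ∧ 4 * lf z < (cell z : ℕ) + 1 :=
  ⟨Nat.floor_le (by linarith [lf1 z]), Nat.lt_floor_add_one _⟩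
@[fun_prop] lemma cellm : Measurable cell := by
  have : Measurable lf := measurable_subtype_coe.comp (AddCircle.measurableEquivIco 1 0).measurable
  refine measurable_to_countable' fun c => ?_
  convert (Nat.measurable_floor.comp (this.const_mul 4)) (measurableSet_singleton c.1) using 1
  ext z; simp [cell, Fin.ext_iff]

def al : T := (√2 : ℝ)
def hh (s : ℤ × ℤ → T) (v : ℤ × ℤ) : T := v.1 • al + s v - s (v.1, v.2 - 1)
def ww (s : ℤ × ℤ → T) (v : ℤ × ℤ) : T := s (v.1 - 1, v.2) - s v
def XX (s : ℤ × ℤ → T) (v : ℤ × ℤ) : Fin 4 × Fin 4 := (cell (hh s v), cell (ww s v))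
lemma XXm : Measurable XX := by unfold XX hh ww; fun_prop
instance : IsProbabilityMeasure (volume : Measure T) := ⟨by simp⟩
def PP : Measure (ℤ × ℤ → T) := Measure.infinitePi fun _ => volume
instance : IsProbabilityMeasure PP := by unfold PP; infer_instance

lemma per {f : ℕ → ℝ} {n : ℕ} (h : ∀ i, f (i + n) = f i) (L : ℕ) :
    ∑ i ∈ Finset.range (L * n), f i = L * ∑ i ∈ Finset.range n, f i := by
  have : ∀ L i, f (L * n + i) = f i := fun L i => by
    induction L with
    | zero => simp
    | succ L ih => rw [← ih, ← h (L * n + i)]; congr 1; ring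
  induction L with
  | zero => simp
  | succ L ih => rw [add_mul, one_mul, Finset.sum_range_add, ih]; simp only [this]; push_cast; ring

def kk (x : ℤ × ℤ → Fin 4 × Fin 4) (i j : ℤ) : ℤ := ⌊(((x (i + 1, j + 1)).1 : ℕ) -
  ((x (i, j + 1)).1 : ℕ) + ((x (i + 1, j + 1)).2 : ℕ) - ((x (i + 1, j)).2 : ℕ) : ℝ) / 4 - √2 + 1 / 2⌋

lemma dv (s : ℤ × ℤ → T) (i j : ℤ) : lf (hh s (i + 1, j + 1)) - lf (hh s (i, j + 1)) +
    (lf (ww s (i + 1, j + 1)) - lf (ww s (i + 1, j))) = √2 + kk (XX s) i j := by
  obtain ⟨k, hk⟩ := (AddCircle.coe_eq_zero_iff (p := 1)).1 (show ((lf (hh s (i + 1, j + 1)) -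
      lf (hh s (i, j + 1)) + (lf (ww s (i + 1, j + 1)) - lf (ww s (i + 1, j))) - √2 : ℝ) : T) = 0 by
    simp only [AddCircle.coe_sub, AddCircle.coe_add, lf2]
    simp only [hh, ww, al, add_sub_cancel_right, add_smul, one_smul]
    abel)
  rw [zsmul_eq_mul, mul_one] at hk
  rw [show kk (XX s) i j = k from Int.floor_eq_iff.2 (by
    simp only [XX]
    constructor <;> linarith [cell1 (hh s (i + 1, j + 1)), cell1 (hh s (i, j + 1)),
      cell1 (ww s (i + 1, j + 1)), cell1 (ww s (i + 1, j))]), hk]
  ring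

lemma box (s : ℤ × ℤ → T) (M : ℕ) : |∑ i ∈ Finset.range M, ∑ j ∈ Finset.range M,
    (√2 + kk (XX s) i j : ℝ)| ≤ 2 * M := by
  have b : ∀ f g : ℕ → T, |∑ i ∈ Finset.range M, (lf (f i) - lf (g i))| ≤ M := fun f g =>
    (Finset.abs_sum_le_sum_abs _ _).trans ((Finset.sum_le_card_nsmul _ _ 1 fun i _ => by
      rw [abs_le]; constructor <;> linarith [lf1 (f i), lf1 (g i)]).trans (by simp))
  simp only [← dv, Finset.sum_add_distrib]
  rw [Finset.sum_comm]
  have e1 := fun j : ℤ => Finset.sum_range_sub (fun i : ℕ => lf (hh s (i, j))) M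
  have e2 := fun j : ℤ => Finset.sum_range_sub (fun i : ℕ => lf (ww s (j, i))) M
  push_cast at e1 e2
  simp only [e1, e2]
  exact (abs_add_le _ _).trans ((add_le_add (b _ _) (b _ _)).trans_eq (two_mul _).symm)

/-- A shift-invariant finitely dependent process on `ℤ²` with a finite alphabet whose support
is nonempty and contains no periodic point. -/
theorem result : ∃ μ : Measure (ℤ × ℤ → Fin 4 × Fin 4), IsProbabilityMeasure μ ∧
    (∀ v, μ.map (shift v) = μ) ∧
    (∀ A B : Set (ℤ × ℤ), (∀ a ∈ A, ∀ b ∈ B, 2 ≤ max |a.1 - b.1| |a.2 - b.2|) →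
      IndepFun (fun x (a : A) => x a) (fun x (b : B) => x b) μ) ∧
    (supp μ).Nonempty ∧ ∀ x ∈ supp μ, ¬ (stab x).FiniteIndex := by
  have := Measure.isProbabilityMeasure_map (μ := PP) XXm.aemeasurable
  have mp : MeasurePreserving XX PP _ := ⟨XXm, rfl⟩
  have cm : ∀ (B : Finset (ℤ × ℤ)) (x : ℤ × ℤ → Fin 4 × Fin 4),
      MeasurableSet {y : ℤ × ℤ → Fin 4 × Fin 4 | ∀ v ∈ B, y v = x v} := fun B x => by
    simp only [ofPred_forall]
    exact .iInter fun v => .iInter fun _ => measurable_pi_apply v (measurableSet_singleton _)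
  refine ⟨_, this, fun v => ?_, fun A B h => ?_, ?_, fun x hx hf => ?_⟩
  · have h1 : MeasurePreserving (fun s u => (u.2 * v.1) • al + s u) PP PP := ⟨by fun_prop, by
      have := Measure.infinitePi_map_pi (fun _ : ℤ × ℤ => (volume : Measure T))
        (f := fun u z => (u.2 * v.1) • al + z) fun i => measurable_const_add _
      simp only [map_add_left_eq_self] at this
      exact this⟩
    have h2 := h1.comp (Glue.reidx volume (Equiv.addRight v))
    conv_rhs => rw [← h2.map_eq]
    rw [Measure.map_map (by unfold shift; fun_prop) XXm, Measure.map_map XXm h2.measurable]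
    congr 1 with s u : 2
    simp only [comp, shift, XX, hh, ww, Equiv.coe_addRight, Prod.fst_add, Prod.snd_add, add_smul,
      sub_mul, sub_smul, one_mul, Prod.add_def, sub_add_eq_add_sub]
    congr 2 <;> abel
  · let D : Set (ℤ × ℤ) := {u | u ∈ B ∨ (u.1 + 1, u.2) ∈ B ∨ (u.1, u.2 + 1) ∈ B}
    refine (Net.ind_map mp (by fun_prop) (by fun_prop)).2 ((Net.ind_map (Glue.glue _ D)
      (Measurable.comp (by fun_prop) XXm) (Measurable.comp (by fun_prop) XXm)).2 ?_)
    change IndepFun _ _ (PP.prod PP)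
    convert indepFun_prod (μ := PP) (ν := PP) (X := (fun x (a : A) => x a) ∘ XX)
      (Y := (fun x (a : B) => x a) ∘ XX) (Measurable.comp (by fun_prop) XXm)
      (Measurable.comp (by fun_prop) XXm) using 1 <;> funext p ⟨a, ha⟩ <;>
      simp only [comp, XX, hh, ww]
    · rw [Glue.gl_out, Glue.gl_out, Glue.gl_out] <;> rintro (e | e | e) <;>
        have := h _ ha _ e <;> simp at this
    · rw [Glue.gl_in, Glue.gl_in, Glue.gl_in] <;> simp [D, ha]
  · refine (ae_all_iff.2 fun B : Finset (ℤ × ℤ) => ?_ : ∀ᵐ x ∂PP.map XX, _).exists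
    refine measure_mono_null (t := ⋃ p : B → Fin 4 × Fin 4, ⋃ _ : PP.map XX
      {y | ∀ v : B, y v = p v} = 0, {y | ∀ v : B, y v = p v}) (fun x hx => ?_)
      (measure_iUnion_null fun p => measure_iUnion_null id)
    exact mem_iUnion₂.2 ⟨fun v => x v, by simpa using hx, fun _ => rfl⟩
  · have h0 := (stab x).index_ne_zero_of_finite
    have h1 : ∀ i j, x (i + (stab x).index, j) = x (i, j) := fun i j => by
      simpa [shift] using congrFun ((stab x).nsmul_index_mem (1, 0)) (i, j)
    have h2 : ∀ i j, x (i, j + (stab x).index) = x (i, j) := fun i j => by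
      simpa [shift] using congrFun ((stab x).nsmul_index_mem (0, 1)) (i, j)
    generalize (stab x).index = n at *
    set S : ℝ := ∑ i ∈ Finset.range n, ∑ j ∈ Finset.range n, (√2 + kk x i j : ℝ) with hS
    have h3 : ∀ L : ℕ, L * L * |S| ≤ 2 * (L * n) := fun L => by
      have := hx (Finset.Icc 0 ((L * n : ℕ), (L * n : ℕ)))
      rw [Measure.map_apply XXm (cm _ _)] at this
      obtain ⟨s, hs⟩ := nonempty_of_measure_ne_zero this.ne'
      have := box s (L * n)
      rw [Finset.sum_congr rfl fun (i : ℕ) hi => Finset.sum_congr rfl fun (j : ℕ) hj =>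
        show (√2 + kk (XX s) i j : ℝ) = √2 + kk x i j by
          simp only [Finset.mem_range] at hi hj
          unfold kk
          rw [hs, hs, hs] <;> simp only [Finset.mem_Icc, Prod.le_def, Prod.fst_zero,
            Prod.snd_zero] <;> omega] at this
      have e := fun i : ℤ => per (f := fun j => (√2 + kk x i j : ℝ)) (n := n) fun j => by
        simp only [kk, Nat.cast_add, add_right_comm _ (n : ℤ), h2]
      simp only [e] at this
      rw [← Finset.mul_sum, per (n := n) fun i => by
        simp only [kk, Nat.cast_add, add_right_comm _ (n : ℤ), h1], ← hS, ← mul_assoc, abs_mul,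
        abs_of_nonneg (by positivity)] at this
      exact_mod_cast this
    have h4 : S = 0 := by
      by_contra c
      obtain ⟨L, hL⟩ := exists_nat_gt (2 * n / |S|)
      have hS0 := abs_pos.2 c
      have : (0 : ℝ) < L := lt_of_le_of_lt (by positivity) hL
      rw [div_lt_iff₀ hS0] at hL
      nlinarith [h3 L]
    simp only [Finset.sum_add_distrib, Finset.sum_const, Finset.card_range, nsmul_eq_mul,
      ← Int.cast_sum, h4] at hS
    exact (((irrational_sqrt_two.natCast_mul h0).natCast_mul h0).add_intCast _).ne_zero hS.symm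

end
end Pool.Agent.Results.MP_5c5aaa_pr.NoPeriodic
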